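import Pool.Agent.Helper55.FR.Sel

/-!
# Project FR (MP_0f6f3f_an): the masses on finite sets tend to zero

If `f m x = U_(c m x) δ_1` and the sets `{c m = l}` have small measure for each `l`, then the mass of `f m` on a finite set tends to zero (Bessel inequality for the orthonormal family `U_l δ_1`).
-/

set_option autoImplicit false
set_option linter.unusedSectionVars false

open MeasureTheory Filter Topology

namespace Pool.Agent.Helper55.FR

open Pool.Agent.Helper84.NI Pool.Agent.Helper84.GN Pool.Agent.Helper84.GVN Pool.Agent.Helper84.FR Pool.Agent.Helper96.RK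
open Pool.Agent.Helper66.FR

variable {X : Type} [MeasurableSpace X] {μ : Measure X} [IsProbabilityMeasure μ]
variable {G Λ : Type} [Group G] [Group Λ]

theorem orthonormal_cf (E : Emb Λ G) : Orthonormal ℂ (fun l : Λ => cf (E.U l)) := by
  classical
  rw [orthonormal_iff_ite]
  intro l m
  have h1 : E.U m = E.U l * E.U (l⁻¹ * m) := by rw [← map_mul, mul_inv_cancel_left]
  have h2 : inner ℂ (cf (E.U l)) (cf (E.U m)) = cf (E.U (l⁻¹ * m)) 1 := by
    unfold cf
    rw [h1, LinearIsometryEquiv.coe_mul, Function.comp_apply, LinearIsometryEquiv.inner_map_map,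
      inner_dl_left]
  rw [h2]
  split_ifs with h
  · subst h
    rw [inv_mul_cancel, map_one]
    unfold cf
    rw [LinearIsometryEquiv.coe_one, id, ← inner_dl_left, inner_self_eq_norm_sq_to_K, norm_dl]
    simp
  · exact E.tr _ (fun h3 => h (by rw [← mul_one l, ← h3, mul_inv_cancel_left]))

theorem norm_ind_finset (S : Finset G) (f : L2 G) : ‖ind ℂ (S : Set G) f‖ ^ 2 = ∑ γ ∈ S, ‖f γ‖ ^ 2 := by
  classical
  have h1 := lv_hasSum (ind ℂ (S : Set G) f)
  refine h1.unique ?_
  have h2 : ∑ γ ∈ S, ‖f γ‖ ^ 2 = ∑ γ ∈ S, ‖ind ℂ (S : Set G) f γ‖ ^ 2 := by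
    refine Finset.sum_congr rfl fun γ hγ => ?_
    rw [ind_apply, if_pos (Finset.mem_coe.2 hγ)]
  rw [h2]
  refine hasSum_sum_of_ne_finset_zero fun γ hγ => ?_
  rw [ind_apply, if_neg (fun h => hγ (Finset.mem_coe.1 h)), norm_zero, zero_pow two_ne_zero]

theorem summable_mass (E : Emb Λ G) (S : Finset G) :
    Summable fun l : Λ => ‖ind ℂ (S : Set G) (cf (E.U l))‖ ^ 2 := by
  simp_rw [norm_ind_finset]
  refine summable_sum fun γ _ => ?_
  have h1 := (orthonormal_cf E).inner_products_summable (dl γ)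
  refine h1.congr fun l => ?_
  rw [inner_dl_right, RCLike.norm_conj]

/-- The mass on a finite set tends to zero. -/
theorem tendsto_mass (E : Emb Λ G) {f : ℕ → XL μ (L2 G)} {c : ℕ → X → Λ}
    (hc : ∀ m l, MeasurableSet (c m ⁻¹' {l})) (hf : ∀ m, ∀ᵐ x ∂μ, f m x = cf (E.U (c m x)))
    (h0 : ∀ l, Tendsto (fun m => μ.real (c m ⁻¹' {l})) atTop (𝓝 0)) (S : Finset G) :
    Tendsto (fun m => ‖cl μ (ind ℂ (S : Set G)) (f m)‖ ^ 2) atTop (𝓝 0) := by
  classical
  rw [Metric.tendsto_atTop]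
  intro ε hε
  have h1 := (summable_mass E S).tendsto_cofinite_zero
  have h2 : {l : Λ | ¬ ‖ind ℂ (S : Set G) (cf (E.U l))‖ ^ 2 < ε / 3}.Finite :=
    h1.eventually (gt_mem_nhds (show (0 : ℝ) < ε / 3 by positivity))
  set T : Finset Λ := h2.toFinset with hT
  have h3 : Tendsto (fun m => ∑ l ∈ T, μ.real (c m ⁻¹' {l})) atTop (𝓝 0) := by
    have := tendsto_finsetSum T fun l _ => h0 l
    simpa using this
  obtain ⟨n0, hn0⟩ := Metric.tendsto_atTop.1 h3 (ε / 3) (by positivity)
  refine ⟨n0, fun m hm => ?_⟩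
  have h4 := hn0 m hm
  rw [Real.dist_eq, sub_zero] at h4
  have h5 : ∑ l ∈ T, μ.real (c m ⁻¹' {l}) < ε / 3 := (le_abs_self _).trans_lt h4
  rw [Real.dist_eq, sub_zero, abs_of_nonneg (sq_nonneg _), xl_norm_sq]
  have hint : Integrable (fun x => ε / 3 + ∑ l ∈ T, (c m ⁻¹' {l}).indicator (fun _ => (1 : ℝ)) x) μ := by
    refine (integrable_const _).add (integrable_finsetSum T fun l _ => ?_)
    exact (integrable_const _).indicator (hc m l)
  have h6 : ∫ x, ‖cl μ (ind ℂ (S : Set G)) (f m) x‖ ^ 2 ∂μ ≤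
      ∫ x, (ε / 3 + ∑ l ∈ T, (c m ⁻¹' {l}).indicator (fun _ => (1 : ℝ)) x) ∂μ := by
    refine integral_mono_ae (xl_int _) hint ?_
    filter_upwards [hf m, cl_apply (ind ℂ (S : Set G)) (f m)] with x hx1 hx2
    rw [hx2, hx1]
    by_cases hx : c m x ∈ T
    · have h7 : ‖ind ℂ (S : Set G) (cf (E.U (c m x)))‖ ^ 2 ≤ 1 := by
        refine pow_le_one₀ (norm_nonneg _) ?_
        rw [← norm_cf (E.U (c m x))]
        refine (sq_le_sq₀ (norm_nonneg _) (norm_nonneg _)).1 ?_
        refine hasSum_le (fun γ => ?_) (lv_hasSum (ind ℂ (S : Set G) (cf (E.U (c m x)))))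
          (lv_hasSum (cf (E.U (c m x))))
        rw [ind_apply]
        split_ifs
        · exact le_rfl
        · rw [norm_zero, zero_pow two_ne_zero]
          exact sq_nonneg _
      have h8 : (1 : ℝ) ≤ ∑ l ∈ T, (c m ⁻¹' {l}).indicator (fun _ => (1 : ℝ)) x := by
        have h9 : (c m ⁻¹' {c m x}).indicator (fun _ => (1 : ℝ)) x = 1 :=
          Set.indicator_of_mem (show x ∈ c m ⁻¹' {c m x} from rfl) _
        refine h9.ge.trans ?_
        exact Finset.single_le_sum (f := fun l => (c m ⁻¹' {l}).indicator (fun _ => (1 : ℝ)) x)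
          (fun l _ => Set.indicator_nonneg (fun _ _ => zero_le_one) x) hx
      linarith
    · have h7 : ‖ind ℂ (S : Set G) (cf (E.U (c m x)))‖ ^ 2 < ε / 3 := by
        by_contra hcon
        exact hx (h2.mem_toFinset.2 hcon)
      have h8 : (0 : ℝ) ≤ ∑ l ∈ T, (c m ⁻¹' {l}).indicator (fun _ => (1 : ℝ)) x :=
        Finset.sum_nonneg fun l _ => Set.indicator_nonneg (fun _ _ => zero_le_one) x
      linarith
  have h7 : ∫ x, (ε / 3 + ∑ l ∈ T, (c m ⁻¹' {l}).indicator (fun _ => (1 : ℝ)) x) ∂μ =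
      ε / 3 + ∑ l ∈ T, μ.real (c m ⁻¹' {l}) := by
    rw [integral_add (integrable_const _)
      (integrable_finsetSum T fun l _ => (integrable_const _).indicator (hc m l)),
      integral_finsetSum T fun l _ => (integrable_const _).indicator (hc m l)]
    congr 1
    · simp
    · refine Finset.sum_congr rfl fun l _ => ?_
      rw [integral_indicator_const _ (hc m l), smul_eq_mul, mul_one]
  rw [h7] at h6
  linarith

end Pool.Agent.Helper55.FR
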