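import Pool.Agent.Helper55.FR.Ind
import Pool.Agent.Helper55.FR.Start
import Pool.Agent.Helper96.FR.Rge0
import Pool.Agent.Helper96.RK.Ty5

/-!
# Project FR (MP_0f6f3f_an): assembly of the induction

`rank_le_of_escape`: a family of functions `z g x = U_(a(g, g⁻¹ x)) δ_1` over a probability space with a cocycle, the elements of `RankGE`, and the escape step (hypothesis `hE`) give `r1 ≤ r`.
-/

set_option autoImplicit false
set_option linter.unusedSectionVars false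

open MeasureTheory Filter Topology

namespace Pool.Agent.Helper55.FR

open Pool.Agent.Helper84.NI Pool.Agent.Helper84.GN Pool.Agent.Helper84.GVN Pool.Agent.Helper90.RK
open Pool.Agent.Helper96.RK Pool.Agent.Helper66.FR Pool.Agent.Helper84.FR Pool.Agent.Helper96.FR

/-- The subgroup generated by the first `k` elements. -/
def VV {G1 : Type} [Group G1] {r : ℕ} (a : Fin r → G1) (k : ℕ) : Subgroup G1 :=
  Subgroup.closure {g | ∃ i : Fin r, (i : ℕ) < k ∧ a i = g}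

theorem VV_mono {G1 : Type} [Group G1] {r : ℕ} (a : Fin r → G1) {k k' : ℕ} (h : k ≤ k') : VV a k ≤ VV a k' := by
  refine Subgroup.closure_mono ?_
  rintro g ⟨i, hi, rfl⟩
  exact ⟨i, lt_of_lt_of_le hi h, rfl⟩

theorem mem_VV {G1 : Type} [Group G1] {r : ℕ} (a : Fin r → G1) (i : Fin r) {k : ℕ} (h : (i : ℕ) < k) :
    a i ∈ VV a k := Subgroup.subset_closure ⟨i, h, rfl⟩

theorem VV_comm {G1 : Type} [Group G1] {r : ℕ} (a : Fin r → G1) {k : ℕ} {x : G1}
    (hx : ∀ i : Fin r, (i : ℕ) < k → a i * x = x * a i) {g : G1} (hg : g ∈ VV a k) : g * x = x * g := by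
  have h1 : VV a k ≤ Subgroup.centralizer {x} := by
    refine (Subgroup.closure_le _).2 ?_
    rintro g ⟨i, hi, rfl⟩
    rw [SetLike.mem_coe, Subgroup.mem_centralizer_iff]
    rintro y rfl
    exact (hx i hi).symm
  have h2 := Subgroup.mem_centralizer_iff.1 (h1 hg) x rfl
  exact h2.symm

section Core

variable {X : Type} [MeasurableSpace X] {μ : Measure X} [IsProbabilityMeasure μ]
variable {G1 G Λ : Type} [Group G1] [TopologicalSpace G1] [MulAction G1 X] [Group G] [Group Λ]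

/-- The escape step for the family `z`. -/
def Esc (z : G1 → XL μ (L2 G)) (hz : ∀ i, ∀ᵐ y ∂μ, ‖z i y‖ ≤ 1) : Prop :=
  ∀ (R : Reg G), HasCoc R → ∀ (b : ℕ → G1), HasComp R z hz b → ∀ (a u w : G1), (∀ n, b n * a = a * b n) →
    (∀ n, b n * u = u * b n) → (∀ n, b n * w = w * b n) →
    Tendsto (fun m : ℕ => (a ^ m)⁻¹ * u * a ^ m) atTop (𝓝 1) →
    Tendsto (fun m : ℕ => a ^ m * w * (a ^ m)⁻¹) atTop (𝓝 1) →
    DiscreteTopology (Subgroup.closure {u, w}) → NonAm (Subgroup.closure {u, w}) →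
    ∃ β : ℝ, 0 < β ∧ ∀ s : Set G, (∀ n, s ∈ R.F n) → ∀ m : ℕ, ∃ (n : ℕ) (k : ℤ),
      β ≤ ‖cl μ (ind ℂ (s \ R.W m)) (z (a ^ k * b n))‖

theorem rank_le_of_escape {N : ℕ} {P : PH G N} {S : Sv P} (hI : ∀ T : Str S, HasCoc (toReg T)) {r : ℕ}
    (hr : LinRk S r) (E : Emb Λ G) (c : G1 → X → Λ) (hmp : ∀ g : G1, MeasurePreserving (fun x => g • x) μ μ)
    (hc : ∀ (g : G1) (l : Λ), MeasurableSet (c g ⁻¹' {l}))
    (hF2 : ∀ l : Λ, Tendsto (fun g : G1 => μ {x | c g x = l}) (cocompact G1) (𝓝 0))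
    (z : G1 → XL μ (L2 G)) (hz : ∀ g, ∀ᵐ x ∂μ, z g x = cf (E.U (c g (g⁻¹ • x))))
    (hz1 : ∀ i, ∀ᵐ y ∂μ, ‖z i y‖ ≤ 1) (hE : Esc z hz1) {r1 : ℕ} (hG : RankGE G1 r1) : r1 ≤ r := by
  rcases Nat.eq_zero_or_pos r1 with rfl | hr1
  · exact Nat.zero_le _
  obtain ⟨a, u, w, haa, ha0, hstep⟩ := hG
  let i0 : Fin r1 := ⟨0, hr1⟩
  have hn : ∀ g, ‖z g‖ = 1 := by
    intro g
    have h1 : ‖z g‖ ^ 2 = 1 := by
      rw [xl_norm_sq]
      have h2 : ∫ x, ‖z g x‖ ^ 2 ∂μ = ∫ _x, (1 : ℝ) ∂μ := by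
        refine integral_congr_ae ?_
        filter_upwards [hz g] with x hx
        rw [hx, norm_cf, one_pow]
      rw [h2]
      simp
    have h2 : ‖z g‖ ^ 2 = 1 ^ 2 := by rw [h1, one_pow]
    exact (sq_eq_sq₀ (norm_nonneg _) zero_le_one).1 h2
  refine rank_boundX hr z hz1 (fun k => (VV a k : Set G1)) r1 (fun g _ => hn g) ?_ ?_
  · intro F hF
    have h1 := tendsto_mass (μ := μ) E (f := fun m : ℕ => z (a i0 ^ m))
      (c := fun m x => c (a i0 ^ m) ((a i0 ^ m)⁻¹ • x)) (fun m l => (hmp _).measurable (hc _ l))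
      (fun m => hz _) (fun l => by
        have h2 := (ENNReal.tendsto_toReal ENNReal.zero_ne_top).comp ((hF2 l).comp (ha0 i0 rfl))
        rw [ENNReal.toReal_zero] at h2
        refine h2.congr fun m => ?_
        have h3 := (hmp (a i0 ^ m)⁻¹).measure_preimage (hc (a i0 ^ m) l).nullMeasurableSet
        change (μ (c (a i0 ^ m) ⁻¹' {l})).toReal =
          (μ ((fun x => (a i0 ^ m)⁻¹ • x) ⁻¹' (c (a i0 ^ m) ⁻¹' {l}))).toReal
        rw [h3]) hF.toFinset
    obtain ⟨m, hm⟩ := (h1.eventually (gt_mem_nhds (show (0 : ℝ) < 3 / 4 by norm_num))).exists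
    refine ⟨a i0 ^ m, (VV a 1).pow_mem (mem_VV a i0 Nat.zero_lt_one) m, ?_⟩
    rw [hF.coe_toFinset] at hm
    exact hm.le
  · intro k hk hkr J ch b hb hcomp
    let i : Fin r1 := ⟨k, hkr⟩
    have hi : (i : ℕ) ≠ 0 := by
      change k ≠ 0
      omega
    obtain ⟨hco, hu, hw, hdisc, hna⟩ := hstep i hi
    obtain ⟨β, hβ, h⟩ := hE (toReg (chStr S J ch)) (hI _) b hcomp (a i) (u i) (w i)
      (fun n => VV_comm a (fun j _ => haa j i) (hb n))
      (fun n => VV_comm a (fun j hj => (hco j (Fin.lt_def.2 hj)).1) (hb n))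
      (fun n => VV_comm a (fun j hj => (hco j (Fin.lt_def.2 hj)).2) (hb n)) hu hw hdisc hna
    refine ⟨β, hβ, fun m => ?_⟩
    obtain ⟨n, q, hnq⟩ := h (TC S (J :: ch) m) (fun n => TC_mem_FC S J ch m n) m
    refine ⟨a i ^ q * b n, ?_, hnq⟩
    exact (VV a (k + 1)).mul_mem ((VV a (k + 1)).zpow_mem (mem_VV a i (Nat.lt_succ_self k)) q)
      (VV_mono a (Nat.le_succ k) (hb n))

end Core

end Pool.Agent.Helper55.FR
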