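import Pool.Agent.Helper55.FR.Pre
import Pool.Agent.Helper84.FR.EV

/-!
# Project FR (MP_0f6f3f_an): the full rank theorem

`full_rank`: let `Γ1` be a lattice of a locally compact second countable group `G1` of rank at least `r1`, and `Γ2` a group of rank at most `r2`. If `L(Γ1)` embeds in `L(Γ2)` preserving the trace, or if `Γ1` is icc and
`L(Γ1)` and `L(Γ2)` are isomorphic, then `r1 ≤ r2`.
-/

set_option autoImplicit false
set_option linter.unusedSectionVars false

open MeasureTheory Filter Topology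

namespace Pool.Agent.Helper55.FR

open Pool.Agent.Helper84.NI Pool.Agent.Helper84.GN Pool.Agent.Helper84.GVN Pool.Agent.Helper90.RK
open Pool.Agent.Helper96.RK Pool.Agent.Helper66.FR Pool.Agent.Helper84.FR Pool.Agent.Helper96.FR
open Pool.Agent.Helper66.RKS

theorem escAll : EscAll := by
  intro X G1 G Λ _ μ _ _ _ _ _ _ _ _ _ _ _ _ _ a E h3 hp
  exact esc a E h3 fun F hF => ⟨countable_of_discrete F, hp F hF⟩

section Main

variable {G1 : Type} [Group G1] [TopologicalSpace G1] [IsTopologicalGroup G1] [LocallyCompactSpace G1]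
  [SecondCountableTopology G1] [T2Space G1] {Γ1 : Subgroup G1} {Γ2 : Type} [Group Γ2] {r1 r2 : ℕ}

/-- The full rank theorem, for trace preserving homomorphisms. -/
theorem full_rank_tr (hL : Pool.Agent.Helper96.FR.Lattice Γ1) (hG : RankGE G1 r1) (h2 : RankLE Γ2 r2)
    (θ : LH Γ1 →⋆ₐ[ℂ] LH Γ2) (hτ : ∀ x, (θ x).tr = x.tr) : r1 ≤ r2 := full_rank_hom escAll hL hG h2 θ hτ

/-- The full rank theorem, for isomorphisms. -/
theorem full_rank (hL : Pool.Agent.Helper96.FR.Lattice Γ1) (hicc : IsICC Γ1) (hG : RankGE G1 r1) (h2 : RankLE Γ2 r2)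
    (h : IsoL Γ1 Γ2) : r1 ≤ r2 := full_rank_iso escAll hL hicc hG h2 h

end Main

end Pool.Agent.Helper55.FR
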