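import Pool.Agent.Helper55.FR.Sel
import Pool.Agent.Helper96.RK.Ty4

/-!
# Project FR (MP_0f6f3f_an): the induction over the types

Port of `rank_bound` of `Helper96/RK/Ty5.lean`: `z g` (`g : I`) are functions `X → ℓ²(G)` with values of norm one, `V 1 ⊆ I` contains elements whose mass is not concentrated on a given finite set,
and whenever a sequence in `V k` has a component over a stratum, then the elements of `V (k + 1)` reach the next level. Then the number `r1` of the families is at most the linear rank.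
-/

set_option autoImplicit false
set_option linter.unusedSectionVars false

open MeasureTheory Filter Topology

namespace Pool.Agent.Helper55.FR

open Pool.Agent.Helper84.NI Pool.Agent.Helper84.GN Pool.Agent.Helper84.GVN Pool.Agent.Helper90.RK
open Pool.Agent.Helper96.RK Pool.Agent.Helper66.FR

variable {X : Type} [MeasurableSpace X] {μ : Measure X} [IsProbabilityMeasure μ]
variable {G : Type} [Group G] {N : ℕ} {P : PH G N}

/-- The class of the sequence `z (b n)` has a component over the stratum. -/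
def HasComp (R : Reg G) {I : Type} (z : I → XL μ (L2 G)) (hz : ∀ i, ∀ᵐ y ∂μ, ‖z i y‖ ≤ 1) (b : ℕ → I) : Prop :=
  ∃ ξ : UE μ (L2 G), (∃ n, ∀ s ∈ R.F n, UE.map μ (ind ℂ s) ξ = ξ) ∧
    inner ℂ ξ (cls (fun n => z (b n)) fun n => hz (b n)) ≠ 0

theorem TC_nonemptyX {S : Sv P} {J : Finset (Fin N)} {c : List (Finset (Fin N))} {I : Type}
    {z : I → XL μ (L2 G)} {hz : ∀ i, ∀ᵐ y ∂μ, ‖z i y‖ ≤ 1} {b : ℕ → I}
    (hne : HasComp (toReg (chStr S J c)) z hz b) (m : ℕ) : (TC S (J :: c) m).Nonempty := by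
  by_contra hcon
  rw [Set.not_nonempty_iff_eq_empty] at hcon
  obtain ⟨ξ, ⟨n, hn⟩, h⟩ := hne
  have h1 := hn (TC S (J :: c) m) (TC_mem_FC S J c m n)
  rw [hcon, ind_empty3, UE.map_zero] at h1
  exact h (by rw [← h1, inner_zero_left])

theorem cl_ind_split (A : Set G) (f : XL μ (L2 G)) :
    ‖cl μ (ind ℂ A) f‖ ^ 2 + ‖cl μ (ind ℂ (Set.univ \ A)) f‖ ^ 2 = ‖f‖ ^ 2 := by
  classical
  have h := cl_sum_sq_eq (μ := μ) (Finset.univ : Finset Bool)
    (fun i => ind ℂ (if i then A else Set.univ \ A)) (fun x => by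
      rw [Fintype.sum_bool]
      simp only [if_true, Bool.false_eq_true, if_false]
      have h2 : HasSum (fun γ => ‖ind ℂ A x γ‖ ^ 2) (‖ind ℂ A x‖ ^ 2) := lv_hasSum _
      have h3 : HasSum (fun γ => ‖ind ℂ (Set.univ \ A) x γ‖ ^ 2) (‖ind ℂ (Set.univ \ A) x‖ ^ 2) :=
        lv_hasSum _
      have h5 : HasSum (fun γ => ‖x γ‖ ^ 2) (‖x‖ ^ 2) := lv_hasSum x
      refine (h2.add h3).unique ?_
      refine h5.congr_fun fun γ => ?_
      rw [ind_apply, ind_apply]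
      by_cases hγ : γ ∈ A <;> simp [hγ]) f
  rw [Fintype.sum_bool] at h
  simpa using h

theorem startX (S : Sv P) {I : Type} {z : I → XL μ (L2 G)} {V : Set I} (hn : ∀ g ∈ V, ‖z g‖ = 1)
    (h0 : ∀ F : Set G, F.Finite → ∃ g ∈ V, ‖cl μ (ind ℂ F) (z g)‖ ^ 2 ≤ 3 / 4) (m : ℕ) :
    ∃ g ∈ V, 1 / 2 ≤ ‖cl μ (ind ℂ (TC S ([] : List (Finset (Fin N))) m \ WC S (hd []) m)) (z g)‖ := by
  classical
  have hfin : (WC S (hd ([] : List (Finset (Fin N)))) m).Finite := by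
    refine (finite_lg_le S m).subset fun γ hγ i => hγ i ?_
    exact Finset.mem_univ i
  have hTC : TC S ([] : List (Finset (Fin N))) m = Set.univ := by
    ext γ
    simp [TC]
  obtain ⟨g, hg, h1⟩ := h0 _ hfin
  refine ⟨g, hg, ?_⟩
  rw [hTC]
  have h2 := cl_ind_split (WC S (hd ([] : List (Finset (Fin N)))) m) (z g)
  rw [hn g hg] at h2
  nlinarith [norm_nonneg (cl μ (ind ℂ (Set.univ \ WC S (hd ([] : List (Finset (Fin N)))) m)) (z g))]

/-- The number of steps is at most the linear rank. -/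
theorem rank_boundX {S : Sv P} {r : ℕ} (hr : LinRk S r) {I : Type} (z : I → XL μ (L2 G))
    (hz : ∀ i, ∀ᵐ y ∂μ, ‖z i y‖ ≤ 1) (V : ℕ → Set I) (r1 : ℕ) (hn : ∀ g ∈ V 1, ‖z g‖ = 1)
    (h0 : ∀ F : Set G, F.Finite → ∃ g ∈ V 1, ‖cl μ (ind ℂ F) (z g)‖ ^ 2 ≤ 3 / 4)
    (hesc : ∀ k, 1 ≤ k → k < r1 → ∀ (J : Finset (Fin N)) (c : List (Finset (Fin N))) (b : ℕ → I),
      (∀ n, b n ∈ V k) → HasComp (toReg (chStr S J c)) z hz b → ∃ β : ℝ, 0 < β ∧ ∀ m : ℕ, ∃ g ∈ V (k + 1),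
        β ≤ ‖cl μ (ind ℂ (TC S (J :: c) m \ WC S (hd (J :: c)) m)) (z g)‖) : r1 ≤ r := by
  rcases Nat.eq_zero_or_pos r1 with rfl | hr1
  · exact Nat.zero_le _
  have key : ∀ k : ℕ, k + 1 ≤ r1 → ∃ c : List (Finset (Fin N)), c.length = k ∧ IsCh c ∧ ∃ β : ℝ, 0 < β ∧
      ∀ m : ℕ, ∃ g ∈ V (k + 1), β ≤ ‖cl μ (ind ℂ (TC S c m \ WC S (hd c) m)) (z g)‖ := by
    intro k
    induction k with
    | zero =>
      intro _
      exact ⟨[], rfl, trivial, 1 / 2, by norm_num, fun m => startX S hn h0 m⟩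
    | succ k ih =>
      intro hk
      obtain ⟨c, hcl, hch, β, hβ, h⟩ := ih (by omega)
      obtain ⟨J, b, hJ, hb, hne⟩ := selectX S c z hz hβ h
      obtain ⟨β', hβ', h'⟩ := hesc (k + 1) (by omega) (by omega) J c b hb hne
      exact ⟨J :: c, by rw [List.length_cons, hcl], ⟨hJ, hch⟩, β', hβ', h'⟩
  obtain ⟨c, hcl, hch, β, hβ, h⟩ := key (r1 - 1) (by omega)
  obtain ⟨J, b, hJ, _, hne⟩ := selectX S c z hz hβ h
  have h1 := length_le hr (c := J :: c) ⟨hJ, hch⟩ (TC_nonemptyX (hz := hz) (b := b) hne)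
  rw [List.length_cons, hcl] at h1
  omega

end Pool.Agent.Helper55.FR
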