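import Pool.Agent.Helper55.FR.Asm
import Pool.Agent.Helper66.FR.Zt3
import Pool.Agent.Helper96.FR.Lat3
import Pool.Agent.Helper66.RK.Stmt
import Pool.Agent.Helper84.GN.Main

/-!
# Project FR (MP_0f6f3f_an): the full rank theorem, from the escape step

`EscAll`: the escape step for all cocycles over probability spaces. `full_rank_of`: a lattice of a group of rank at least `r1` has no trace preserving embedding in `L(Γ)`, `Γ` of rank at most `r2 < r1`.
-/

set_option autoImplicit false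
set_option linter.unusedSectionVars false

open MeasureTheory Filter Topology

namespace Pool.Agent.Helper55.FR

open Pool.Agent.Helper84.NI Pool.Agent.Helper84.GN Pool.Agent.Helper84.GVN Pool.Agent.Helper90.RK
open Pool.Agent.Helper96.RK Pool.Agent.Helper66.FR Pool.Agent.Helper84.FR Pool.Agent.Helper96.FR
open Pool.Agent.Helper66.RKS

/-- The escape step for all measured cocycles. -/
def EscAll : Prop :=
  ∀ (X G1 G Λ : Type) [MeasurableSpace X] (μ : Measure X) [IsProbabilityMeasure μ] [Group G1]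
    [TopologicalSpace G1] [IsTopologicalGroup G1] [MulAction G1 X] [MeasurableConstSMul G1 X] [SMulInvariantMeasure G1 X μ]
    [Group G] [Group Λ] [Countable Λ] [SecondCountableTopology G1] [LocallyCompactSpace G1] [T2Space G1]
    (a : Cocy G1 X Λ) (E : Emb Λ G),
    Tendsto (fun h : G1 => μ {x | a.a h x ≠ 1}) (𝓝 1) (𝓝 0) →
    (∀ F : Subgroup G1, DiscreteTopology F → ∃ p : X → Λ → F, (∀ (l : Λ) (s : Set F), MeasurableSet {x | p x l ∈ s}) ∧
        ∀ (f : F) (x : X) (l : Λ), p ((f : G1) • x) (a.a f x * l) = f * p x l) →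
    Esc (zx μ a E) zx_bound

theorem full_rank_emb (hE : EscAll) {G1 : Type} [Group G1] [TopologicalSpace G1] [IsTopologicalGroup G1]
    [LocallyCompactSpace G1] [SecondCountableTopology G1] [T2Space G1] {Γ1 : Subgroup G1} (hL : Pool.Agent.Helper96.FR.Lattice Γ1)
    {r1 : ℕ} (hG : RankGE G1 r1) {Γ2 : Type} [Group Γ2] {r2 : ℕ} (h2 : RankLE Γ2 r2) (E : Emb Γ1 Γ2) : r1 ≤ r2 := by
  obtain ⟨N, ρ, hρ⟩ := h2
  obtain ⟨S⟩ := nonempty_sv ρ.ph
  have hr : LinRk S r2 := KAK.linRk (show KAK ρ.ph r2 from hρ) S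
  have hd : DiscreteTopology Γ1 := hL.1
  have hcount : Countable Γ1 := countable_of_discrete Γ1
  obtain ⟨X, mX, act, μ, hμ, c, hmp, hme, hmul, hF2, hF3, hF4⟩ := exists_cocycle Γ1 hL
  have i1 : MeasurableConstSMul G1 X := ⟨fun g => (hmp g).measurable⟩
  have i2 : SMulInvariantMeasure G1 X μ := ⟨fun g s hs => (hmp g).measure_preimage hs.nullMeasurableSet⟩
  let a : Cocy G1 X Γ1 := ⟨c, fun h l => hme h {l}, hmul⟩
  exact rank_le_of_escape (S := S) (fun T => hasCoc T) hr E c hmp (fun g l => hme g {l}) hF2 (zx μ a E)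
    (fun g => zv_apply (mea_a (a := a) g g⁻¹)) zx_bound
    (hE X G1 Γ2 Γ1 μ a E hF3 hF4) hG

/-- The embedding given by a trace preserving star homomorphism. -/
noncomputable def homEmb {Γ Λ : Type} [Group Γ] [Group Λ] (θ : LG Λ →⋆ₐ[ℂ] LG Γ)
    (hτ : ∀ x, Pool.Agent.Helper84.GVN.tr (θ x) = Pool.Agent.Helper84.GVN.tr x) : Emb Λ Γ where
  U := hv θ
  comm := hv_commR θ
  tr := fun _ hl => hv_tr θ hτ hl

/-- No trace preserving homomorphism. -/
theorem full_rank_hom (hE : EscAll) {G1 : Type} [Group G1] [TopologicalSpace G1] [IsTopologicalGroup G1]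
    [LocallyCompactSpace G1] [SecondCountableTopology G1] [T2Space G1] {Γ1 : Subgroup G1} (hL : Pool.Agent.Helper96.FR.Lattice Γ1)
    {r1 : ℕ} (hG : RankGE G1 r1) {Γ2 : Type} [Group Γ2] {r2 : ℕ} (h2 : RankLE Γ2 r2)
    (θ : LH Γ1 →⋆ₐ[ℂ] LH Γ2) (hτ : ∀ x, (θ x).tr = x.tr) : r1 ≤ r2 := by
  refine full_rank_emb hE hL hG h2
    (homEmb (((bridge Γ2).toStarAlgHom.comp θ).comp (bridge Γ1).symm.toStarAlgHom) fun x => ?_)
  have h1 := hτ ((bridge Γ1).symm x)
  change (θ ((bridge Γ1).symm x)).coeff 1 = ((bridge Γ1).symm x).coeff 1 at h1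
  rw [← bridge_coeff, ← bridge_coeff] at h1
  exact h1

/-- No isomorphism. -/
theorem full_rank_iso (hE : EscAll) {G1 : Type} [Group G1] [TopologicalSpace G1] [IsTopologicalGroup G1]
    [LocallyCompactSpace G1] [SecondCountableTopology G1] [T2Space G1] {Γ1 : Subgroup G1} (hL : Pool.Agent.Helper96.FR.Lattice Γ1)
    (hicc : IsICC Γ1) {r1 : ℕ} (hG : RankGE G1 r1) {Γ2 : Type} [Group Γ2] {r2 : ℕ} (h2 : RankLE Γ2 r2)
    (h : IsoL Γ1 Γ2) : r1 ≤ r2 := by
  obtain ⟨e⟩ := h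
  let e' : LG Γ1 ≃⋆ₐ[ℂ] LG Γ2 := (bridge Γ1).symm.trans (e.trans (bridge Γ2))
  exact full_rank_emb hE hL hG h2
    (homEmb e'.toStarAlgHom fun x => Pool.Agent.Helper84.TU.tr_iso hicc e' x)

end Pool.Agent.Helper55.FR
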