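import Pool.Agent.Helper66.FR.XP7
import Pool.Agent.Helper96.RK.Ty3

/-!
# Project FR (MP_0f6f3f_an): selection of the next type, for vectors of `L²(X; ℓ²(G))`

Port of `Helper96/RK/Ty3.lean`. `z : I → L²(X; ℓ²(G))` is a family of functions with values in the unit ball. If the vectors `z i`, `i ∈ V`, have mass at least `β` on `TC c m` minus
`WC (hd c) m` for all `m`, then there are a set `J` strictly inside the head of the chain, a sequence `b` in `V` and a vector of the equi-integrable limit space which is carried by the filter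
of the stratum of the chain `J :: c` and is not orthogonal to the class of the sequence `z (b n)`.
-/

set_option autoImplicit false
set_option linter.unusedSectionVars false

open MeasureTheory Filter Topology

namespace Pool.Agent.Helper55.FR

open Pool.Agent.Helper84.NI Pool.Agent.Helper84.GN Pool.Agent.Helper84.GVN Pool.Agent.Helper90.RK
open Pool.Agent.Helper96.RK Pool.Agent.Helper66.FR

variable {X : Type} [MeasurableSpace X] {μ : Measure X} [IsProbabilityMeasure μ]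

section Hon

variable {H : Type} [NormedAddCommGroup H] [InnerProductSpace ℂ H]

/-- A vector with values in the unit ball has norm at most one. -/
theorem norm_le_one {f : XL μ H} (hf : ∀ᵐ y ∂μ, ‖f y‖ ≤ 1) : ‖f‖ ≤ 1 := by
  have h1 : ‖f‖ ^ 2 ≤ 1 ^ 2 := by
    rw [xl_norm_sq]
    have h2 : ∫ x, ‖f x‖ ^ 2 ∂μ ≤ ∫ _x, (1 : ℝ) ∂μ := by
      refine integral_mono_ae (xl_int f) (integrable_const _) ?_
      filter_upwards [hf] with y hy
      exact pow_le_one₀ (norm_nonneg _) hy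
    refine h2.trans ?_
    simp
  exact le_of_sq_le_sq h1 zero_le_one

/-- The bounded sequence of a sequence of functions with values in the unit ball. -/
noncomputable def bs (f : ℕ → XL μ H) (hf : ∀ m, ∀ᵐ y ∂μ, ‖f m y‖ ≤ 1) : BSeq (XL μ H) :=
  ⟨f, 1, fun m => norm_le_one (hf m)⟩

theorem eb_bs (f : ℕ → XL μ H) (hf : ∀ m, ∀ᵐ y ∂μ, ‖f m y‖ ≤ 1) : EB 1 (bs f hf) := ⟨zero_le_one, hf⟩

/-- The class of a sequence of functions with values in the unit ball. -/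
noncomputable def cls (f : ℕ → XL μ H) (hf : ∀ m, ∀ᵐ y ∂μ, ‖f m y‖ ≤ 1) : UE μ H := UE.mk (bs f hf) (eb_bs f hf)

theorem cls_congr {f g : ℕ → XL μ H} {hf : ∀ m, ∀ᵐ y ∂μ, ‖f m y‖ ≤ 1} {hg : ∀ m, ∀ᵐ y ∂μ, ‖g m y‖ ≤ 1}
    (m0 : ℕ) (h : ∀ m, m0 ≤ m → f m = g m) : cls f hf = cls g hg := by
  refine UE.eq ?_
  change UP.mk (bs f hf) = UP.mk (bs g hg)
  have h1 := UP.tendsto_norm (bs f hf - bs g hg)
  have h2 : Tendsto (fun n => ‖(bs f hf - bs g hg).1 n‖) (hyperfilter ℕ : Filter ℕ) (𝓝 0) := by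
    refine tendsto_const_nhds.congr' ?_
    have : ∀ᶠ n in atTop, (0 : ℝ) = ‖(bs f hf - bs g hg).1 n‖ := by
      filter_upwards [eventually_ge_atTop m0] with n hn
      have : (bs f hf - bs g hg).1 n = f n - g n := rfl
      rw [this, h n hn, sub_self, norm_zero]
    exact this.filter_mono Nat.hyperfilter_le_atTop
  have h3 := tendsto_nhds_unique h1 h2
  have h4 : UP.mk (bs f hf - bs g hg) = 0 := norm_eq_zero.1 h3
  have h5 : UP.mk (bs f hf) = UP.mk (bs f hf - bs g hg) + UP.mk (bs g hg) := by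
    rw [← UP.mk_add, sub_add_cancel]
  rw [h5, h4, zero_add]

end Hon

section tru

variable {I : Type}

theorem cl_ind_le (A : Set I) {f : XL μ (L2 I)} (hf : ∀ᵐ y ∂μ, ‖f y‖ ≤ 1) :
    ∀ᵐ y ∂μ, ‖cl μ (ind ℂ A) f y‖ ≤ 1 := by
  filter_upwards [hf, cl_apply (ind ℂ A) f] with y h1 h2
  rw [h2]
  exact (norm_ind2 A _).trans h1

theorem cl_ind_ind (A B : Set I) (f : XL μ (L2 I)) :
    cl μ (ind ℂ A) (cl μ (ind ℂ B) f) = cl μ (ind ℂ (A ∩ B)) f := by
  rw [← cl_comp]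
  congr 2
  ext1 g
  exact ind_ind2 A B g

theorem inner_cl_ind (A : Set I) (f : XL μ (L2 I)) :
    inner ℂ (cl μ (ind ℂ A) f) f = ((‖cl μ (ind ℂ A) f‖ ^ 2 : ℝ) : ℂ) := by
  have h1 : inner ℂ (cl μ (ind ℂ A) f) f = inner ℂ (cl μ (ind ℂ A) f) (cl μ (ind ℂ A) f) := by
    rw [xl_inner, xl_inner]
    refine integral_congr_ae ?_
    filter_upwards [cl_apply (ind ℂ A) f] with y hy
    rw [hy, inner_ind2, inner_self_eq_norm_sq_to_K]
    norm_cast
  rw [h1, inner_self_eq_norm_sq_to_K]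
  norm_cast

/-- The class of the truncated sequence. -/
noncomputable def tru (A : ℕ → Set I) (f : ℕ → XL μ (L2 I)) (hf : ∀ m, ∀ᵐ y ∂μ, ‖f m y‖ ≤ 1) :
    UE μ (L2 I) := cls (fun m => cl μ (ind ℂ (A m)) (f m)) fun m => cl_ind_le (A m) (hf m)

theorem ind_tru (B : Set I) (A : ℕ → Set I) (f : ℕ → XL μ (L2 I)) (hf : ∀ m, ∀ᵐ y ∂μ, ‖f m y‖ ≤ 1) :
    UE.map μ (ind ℂ B) (tru A f hf) = tru (fun m => B ∩ A m) f hf := by
  unfold tru cls
  rw [UE.map_mk]
  refine UE.eq ?_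
  change UP.mk _ = UP.mk _
  congr 1
  exact Subtype.ext (funext fun m => cl_ind_ind B (A m) (f m))

theorem tru_congr {A B : ℕ → Set I} (f : ℕ → XL μ (L2 I)) (hf : ∀ m, ∀ᵐ y ∂μ, ‖f m y‖ ≤ 1) (m0 : ℕ)
    (h : ∀ m, m0 ≤ m → A m = B m) : tru A f hf = tru B f hf :=
  cls_congr m0 fun m hm => by rw [h m hm]

theorem ind_empty3 : ind ℂ (∅ : Set I) = (0 : L2 I →L[ℂ] L2 I) := by
  ext1 f
  exact ind_empty2 f

theorem tru_empty (f : ℕ → XL μ (L2 I)) (hf : ∀ m, ∀ᵐ y ∂μ, ‖f m y‖ ≤ 1) :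
    tru (fun _ => (∅ : Set I)) f hf = 0 := by
  refine norm_eq_zero.1 ?_
  refine tendsto_nhds_unique (UE.tendsto_norm _ (eb_bs _ _)) ?_
  refine tendsto_const_nhds.congr fun m => ?_
  change (0 : ℝ) = ‖cl μ (ind ℂ (∅ : Set I)) (f m)‖
  rw [ind_empty3, cl_zero, _root_.zero_apply, norm_zero]

theorem le_norm_tru {A : ℕ → Set I} {f : ℕ → XL μ (L2 I)} {hf : ∀ m, ∀ᵐ y ∂μ, ‖f m y‖ ≤ 1} {β : ℝ}
    (h : ∀ m, β ≤ ‖cl μ (ind ℂ (A m)) (f m)‖) : β ≤ ‖tru A f hf‖ :=
  ge_of_tendsto' (UE.tendsto_norm _ (eb_bs _ _)) h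

/-- The inner product of a truncated sequence with the sequence. -/
theorem inner_tru (A : ℕ → Set I) (f : ℕ → XL μ (L2 I)) (hf : ∀ m, ∀ᵐ y ∂μ, ‖f m y‖ ≤ 1) :
    inner ℂ (tru A f hf) (cls f hf) = ((‖tru A f hf‖ ^ 2 : ℝ) : ℂ) := by
  have h1 := UE.tendsto_inner _ _ (eb_bs (fun m => cl μ (ind ℂ (A m)) (f m)) fun m => cl_ind_le (A m) (hf m))
    (eb_bs f hf)
  have h2 := (UE.tendsto_norm _
    (eb_bs (fun m => cl μ (ind ℂ (A m)) (f m)) fun m => cl_ind_le (A m) (hf m))).pow 2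
  have h3 := (Complex.continuous_ofReal.tendsto _).comp h2
  refine tendsto_nhds_unique h1 (h3.congr fun m => ?_)
  exact (inner_cl_ind (A m) (f m)).symm

/-- Null sets of a vector. -/
theorem null_mono {ξ : UE μ (L2 I)} {B B' : Set I} (h : B' ⊆ B) (hB : UE.map μ (ind ℂ B) ξ = 0) :
    UE.map μ (ind ℂ B') ξ = 0 := by
  have h1 : ind ℂ B' = (ind ℂ B').comp (ind ℂ B) := by
    ext1 f
    rw [ContinuousLinearMap.comp_apply, ind_ind2, Set.inter_eq_left.2 h]
  rw [h1, UE.map_comp, hB, map_zero]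

theorem null_union {ξ : UE μ (L2 I)} {B B' : Set I} (hB : UE.map μ (ind ℂ B) ξ = 0)
    (hB' : UE.map μ (ind ℂ B') ξ = 0) : UE.map μ (ind ℂ (B ∪ B')) ξ = 0 := by
  classical
  have h1 : ind ℂ (B ∪ B') = ind ℂ B + ind ℂ (B' \ B) := by
    ext1 f
    apply lv_ext
    intro i
    rw [_root_.add_apply, lp.coeFn_add, Pi.add_apply, ind_apply, ind_apply, ind_apply]
    by_cases h4 : i ∈ B <;> by_cases h5 : i ∈ B' <;> simp [h4, h5]
  rw [h1, UE.map_add, hB, null_mono Set.sdiff_subset hB', add_zero]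

theorem null_iUnion {ξ : UE μ (L2 I)} {κ : Type} (t : Finset κ) (B : κ → Set I)
    (hB : ∀ k ∈ t, UE.map μ (ind ℂ (B k)) ξ = 0) : UE.map μ (ind ℂ (⋃ k ∈ t, B k)) ξ = 0 := by
  classical
  induction t using Finset.induction_on with
  | empty =>
    have h1 : (⋃ k ∈ (∅ : Finset κ), B k) = ∅ := by simp
    rw [h1, ind_empty3, UE.map_zero]
  | insert a t ha ih =>
    rw [Finset.set_biUnion_insert]
    exact null_union (hB a (Finset.mem_insert_self _ _))
      (ih fun k hk => hB k (Finset.mem_insert_of_mem hk))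

/-- A vector without mass on `Bᶜ ∩ W` whose support is in `W` is carried by `B`. -/
theorem carried {ξ ξ' : UE μ (L2 I)} {W B : Set I} (hξ' : ξ' = UE.map μ (ind ℂ W) ξ)
    (h : UE.map μ (ind ℂ (W \ B)) ξ = 0) : UE.map μ (ind ℂ B) ξ' = ξ' := by
  classical
  have h1 : ind ℂ W = (ind ℂ B).comp (ind ℂ W) + ind ℂ (W \ B) := by
    ext1 f
    apply lv_ext
    intro i
    rw [_root_.add_apply, lp.coeFn_add, Pi.add_apply, ContinuousLinearMap.comp_apply, ind_ind2,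
      ind_apply, ind_apply, ind_apply]
    by_cases h4 : i ∈ B <;> by_cases h5 : i ∈ W <;> simp [h4, h5]
  have h2 : UE.map μ (ind ℂ W) ξ = UE.map μ (ind ℂ B) (UE.map μ (ind ℂ W) ξ) := by
    conv_lhs => rw [h1]
    rw [UE.map_add, h, add_zero, UE.map_comp]
  rw [hξ']
  exact h2.symm

end tru

variable {G : Type} [Group G] {N : ℕ} {P : PH G N}

/-- Selection of the next type. -/
theorem selectX (S : Sv P) (c : List (Finset (Fin N))) {I : Type} (z : I → XL μ (L2 G))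
    (hz : ∀ i, ∀ᵐ y ∂μ, ‖z i y‖ ≤ 1) {V : Set I} {β : ℝ} (hβ : 0 < β)
    (h : ∀ m : ℕ, ∃ i ∈ V, β ≤ ‖cl μ (ind ℂ (TC S c m \ WC S (hd c) m)) (z i)‖) :
    ∃ (J : Finset (Fin N)) (b : ℕ → I), J ⊂ hd c ∧ (∀ n, b n ∈ V) ∧
      ∃ ξ : UE μ (L2 G), (∃ n, ∀ s ∈ (toReg (chStr S J c)).F n, UE.map μ (ind ℂ s) ξ = ξ) ∧
        inner ℂ ξ (cls (fun n => z (b n)) fun n => hz (b n)) ≠ 0 := by
  classical
  choose v hv hvβ using h
  let A : ℕ → Set G := fun m => TC S c m \ WC S (hd c) m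
  have hA : ∀ m, A m = TC S c m \ WC S (hd c) m := fun m => rfl
  let f : ℕ → XL μ (L2 G) := fun m => z (v m)
  have hf : ∀ m, ∀ᵐ y ∂μ, ‖f m y‖ ≤ 1 := fun m => hz (v m)
  set ξ : UE μ (L2 G) := tru A f hf with hξ
  have hξ0 : 0 < ‖ξ‖ := lt_of_lt_of_le hβ (le_norm_tru fun m => hvβ m)
  -- the maximal set
  let 𝒮 : Finset (Finset (Fin N)) :=
    Finset.univ.filter fun J => J ⊆ hd c ∧ ∃ n, UE.map μ (ind ℂ (WC S J n)) ξ ≠ 0
  have h𝒮 : ∀ J, J ∈ 𝒮 ↔ J ⊆ hd c ∧ ∃ n, UE.map μ (ind ℂ (WC S J n)) ξ ≠ 0 := by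
    intro J
    simp [𝒮]
  have hne : 𝒮.Nonempty := by
    refine ⟨∅, (h𝒮 _).2 ⟨Finset.empty_subset _, 0, ?_⟩⟩
    have h1 : WC S (∅ : Finset (Fin N)) 0 = Set.univ := by
      ext γ
      simp [WC]
    rw [h1, hξ, ind_tru]
    simp only [Set.univ_inter]
    rw [← hξ]
    exact norm_pos_iff.1 hξ0
  obtain ⟨J, hJ, hmax⟩ := Finset.exists_max_image 𝒮 Finset.card hne
  obtain ⟨hJc, n, hn⟩ := (h𝒮 J).1 hJ
  have hnull : ∀ j, j ∈ hd c → j ∉ J → ∀ n', UE.map μ (ind ℂ (WC S (insert j J) n')) ξ = 0 := by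
    intro j hj hjJ n'
    by_contra hcon
    have h1 : insert j J ∈ 𝒮 := (h𝒮 _).2 ⟨Finset.insert_subset hj hJc, n', hcon⟩
    have h2 := hmax _ h1
    rw [Finset.card_insert_of_notMem hjJ] at h2
    omega
  have hhd : ∀ n', UE.map μ (ind ℂ (WC S (hd c) n')) ξ = 0 := by
    intro n'
    rw [hξ, ind_tru, tru_congr f hf n' (B := fun _ => ∅), tru_empty]
    intro m hm
    rw [hA]
    ext γ
    simp only [Set.mem_inter_iff, Set.mem_sdiff, Set.mem_empty_iff_false, iff_false, not_and, not_not]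
    intro h1 _
    exact WC_mono S _ hm h1
  have hTC : ∀ m0, UE.map μ (ind ℂ (TC S c m0)ᶜ) ξ = 0 := by
    intro m0
    rw [hξ, ind_tru, tru_congr f hf m0 (B := fun _ => ∅), tru_empty]
    intro m hm
    rw [hA]
    ext γ
    simp only [Set.mem_inter_iff, Set.mem_sdiff, Set.mem_empty_iff_false, iff_false, Set.mem_compl_iff]
    rintro ⟨h1, h2, _⟩
    exact h1 (TC_anti S c hm h2)
  have hJne : J ≠ hd c := by
    rintro rfl
    exact hn (hhd n)
  refine ⟨J, v, ⟨hJc, fun hcon => hJne (Finset.Subset.antisymm hJc hcon)⟩, hv, ?_⟩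
  set ξ' : UE μ (L2 G) := UE.map μ (ind ℂ (WC S J n)) ξ with hξ'
  refine ⟨ξ', ⟨n, fun s hs => ?_⟩, ?_⟩
  · obtain ⟨m0, hm0⟩ := (mem_FC S).1 (show s ∈ FC S J c n from hs)
    refine carried hξ' ?_
    have hsub : WC S J n \ s ⊆ (TC S c m0)ᶜ ∪
        ⋃ j ∈ hd c \ J, WC S (insert j J) (max n (m0 * (1 + N * n))) := by
      rintro γ ⟨h1, h2⟩
      by_cases h3 : γ ∈ TC S c m0
      · right
        have h4 : γ ∉ TC S (J :: c) m0 := fun h4 => h2 (hm0 ⟨h1, h4⟩)
        rw [TC_cons] at h4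
        have h5 : ∃ j, j ∉ J ∧ lg S γ j < (m0 : ℝ) * (1 + ∑ i ∈ J, lg S γ i) := by
          by_contra hcon
          push Not at hcon
          exact h4 ⟨hcon, h3⟩
        obtain ⟨j, hj, hlt⟩ := h5
        have hjc : j ∈ hd c := by
          by_contra hjc
          have h6 := h3 _ (hd_mem hjc) j hjc
          have h7 : ∑ i ∈ J, lg S γ i ≤ ∑ i ∈ hd c, lg S γ i :=
            Finset.sum_le_sum_of_subset_of_nonneg hJc fun i _ _ => lg_nonneg S γ i
          have h8 : (m0 : ℝ) * (1 + ∑ i ∈ J, lg S γ i) ≤ m0 * (1 + ∑ i ∈ hd c, lg S γ i) :=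
            mul_le_mul_of_nonneg_left (by linarith) (Nat.cast_nonneg _)
          linarith
        refine Set.mem_iUnion₂.2 ⟨j, Finset.mem_sdiff.2 ⟨hjc, hj⟩, ?_⟩
        intro i hi
        rcases Finset.mem_insert.1 hi with rfl | hi
        · have h9 : ∑ k ∈ J, lg S γ k ≤ N * n := by
            calc ∑ k ∈ J, lg S γ k ≤ ∑ _k ∈ J, (n : ℝ) := Finset.sum_le_sum fun k hk => h1 k hk
              _ = J.card * n := by rw [Finset.sum_const, nsmul_eq_mul]
              _ ≤ N * n := by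
                have h4 : (J.card : ℝ) ≤ N := by
                  have := Finset.card_le_univ J
                  rw [Fintype.card_fin] at this
                  exact_mod_cast this
                exact mul_le_mul_of_nonneg_right h4 (Nat.cast_nonneg n)
          have h10 : (m0 : ℝ) * (1 + ∑ k ∈ J, lg S γ k) ≤ m0 * (1 + N * n) :=
            mul_le_mul_of_nonneg_left (by linarith) (Nat.cast_nonneg _)
          refine (hlt.le.trans h10).trans ?_
          have : ((m0 * (1 + N * n) : ℕ) : ℝ) ≤ ((max n (m0 * (1 + N * n)) : ℕ) : ℝ) := by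
            exact_mod_cast le_max_right _ _
          push_cast at this ⊢
          exact this
        · refine (h1 i hi).trans ?_
          exact_mod_cast le_max_left _ _
      · exact Or.inl h3
    refine null_mono hsub (null_union (hTC m0) (null_iUnion _ _ fun j hj => ?_))
    rw [Finset.mem_sdiff] at hj
    exact hnull j hj.1 hj.2 _
  · have h1 : ξ' = tru (fun m => WC S J n ∩ A m) f hf := by
      rw [hξ', hξ, ind_tru]
    have h3 := inner_tru (fun m => WC S J n ∩ A m) f hf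
    rw [← h1] at h3
    have h2 : (cls (fun n => z (v n)) fun n => hz (v n) : UE μ (L2 G)) = cls f hf := rfl
    rw [h2, h3]
    have h4 : ‖ξ'‖ ≠ 0 := norm_ne_zero_iff.2 hn
    exact_mod_cast pow_ne_zero 2 h4

end Pool.Agent.Helper55.FR
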